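import Pool.Agent.W840.TP.All

/-!
# Random (2+p)-SAT has a satisfiability threshold for every proportion p

`Clause n k`: clauses with `k` literals on distinct variables out of `n`; `probSat n m2 m3`: the
probability that `m2` random 2-clauses and `m3` random 3-clauses are simultaneously satisfiable.
-/

set_option autoImplicit false

namespace Pool.Agent.Results.MP_4fe7bc_pr.MixedThresholdExists

open Filter

/-- A `k`-clause over the variables `x_0, ..., x_{n-1}`: a choice of exactly `k` variables (those
`i` with `c i ≠ none`), each with a sign (`c i = some true` is the literal `x_i`, `c i = some false`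
the negated literal).  There are `2^k * (n choose k)` of them. -/
def Clause (n k : ℕ) : Type :=
  {c : Fin n → Option Bool // (Finset.univ.filter (fun i => c i ≠ none)).card = k}

/-- The truth assignment `a` makes at least one literal of the clause `c` true. -/
def Satisfies {n k : ℕ} (a : Fin n → Bool) (c : Clause n k) : Prop := ∃ i, c.1 i = some (a i)

/-- The probability that the random mixed formula `F_{2,3}(n, m2, m3)`, i.e. `m2` uniformly random
2-clauses and `m3` uniformly random 3-clauses over `n` variables, all drawn independently with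
replacement, is satisfiable. -/
noncomputable def probSat (n m2 m3 : ℕ) : ℝ :=
  (Nat.card {F : (Fin m2 → Clause n 2) × (Fin m3 → Clause n 3) //
      ∃ a : Fin n → Bool, (∀ j, Satisfies a (F.1 j)) ∧ ∀ j, Satisfies a (F.2 j)} : ℝ) /
    (Nat.card ((Fin m2 → Clause n 2) × (Fin m3 → Clause n 3)) : ℝ)

theorem probSat_eq (n m2 m3 : ℕ) : probSat n m2 m3 = Pool.Agent.W840.TP.satP n m2 m3 := rfl

/-- **The (2+p)-SAT threshold.**  For every `p` in `[0, 1]` there is `αs > 0` such that for all
`α2, α3 > 0` with `α3 / (α2 + α3) = p` the random mixed formula with `⌊α2 n⌋` 2-clauses and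
`⌊α3 n⌋` 3-clauses is satisfiable with probability tending to one if `α2 + α3 < αs`, and with
probability tending to zero if `α2 + α3 > αs`. -/
theorem result : ∀ p : ℝ, 0 ≤ p → p ≤ 1 → ∃ αs : ℝ, 0 < αs ∧ ∀ α2 α3 : ℝ, 0 < α2 → 0 < α3 →
    α3 / (α2 + α3) = p →
    (α2 + α3 < αs →
      Tendsto (fun n : ℕ => probSat n ⌊α2 * (n : ℝ)⌋₊ ⌊α3 * (n : ℝ)⌋₊) atTop (nhds 1)) ∧
    (αs < α2 + α3 →
      Tendsto (fun n : ℕ => probSat n ⌊α2 * (n : ℝ)⌋₊ ⌊α3 * (n : ℝ)⌋₊) atTop (nhds 0)) :=
  Pool.Agent.W840.TP.main_full

end Pool.Agent.Results.MP_4fe7bc_pr.MixedThresholdExists
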